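import Mathlib
import Pool.Agent.U914.WP.GO

/-!
# For almost all polynomials of degree `k`, the asymptotic formula with `k + 1` summands for almost all numbers

Let `k ≥ 2`, let `a > 0` be fixed (for instance `a = 1`), and consider the integer sequence
`⌊f(0)⌋, ⌊f(1)⌋, ⌊f(2)⌋, …` where `f(x) = a x ^ k + θ_{k-1} x ^ (k-1) + … + θ_1 x`. We prove that for almost all
`θ ∈ ℝ ^ (k-1)` and every `s ≥ k + 1` the number of representations of `n` as a sum of `s` members of this sequence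
is given by the expected main term in mean square, with a power saving; in particular this holds with `k + 1`
summands for almost all `n`. On the other hand, for every `θ` the sums of `k` members have upper density at most
`1 / (a k!)`, so that `k + 1` is best possible if `a > 1 / k!`.
-/

set_option autoImplicit false

namespace Pool.Agent.Results.MP_570bef_nt.AsymptoticAlmostAll

open MeasureTheory Filter

/-- **The asymptotic formula for almost all numbers.** Let `k ≥ 2` and `a > 0`, and let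
`f(x) = a x ^ k + θ_{k-1} x ^ (k-1) + … + θ_1 x`. There is `τ > 0` such that for almost all `θ ∈ ℝ ^ (k-1)`
(Lebesgue measure), if `r_s(n)` is the number of representations `n = ⌊f(x₁)⌋ + … + ⌊f(x_s)⌋` with positive integers
`x_i` and `M_s(n) = Γ(1 + 1/k) ^ s / (Γ(s/k) a ^ (s/k)) n ^ (s/k - 1)`:

* for every `s ≥ k + 1` and all large `X` the sum of `(r_s(n) - M_s(n)) ^ 2` over `1 ≤ n ≤ X` is at most
  `X ^ (2s/k - 1 - τ)`;
* for all large `X` all but at most `X ^ (1 - τ)` of the `n ≤ X` satisfy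
  `|r_{k+1}(n) - M_{k+1}(n)| ≤ n ^ (1/k - τ)`.

For every `θ` and every `ρ > 1 / (a k!)`, for all large `X` at most `ρ X` of the `n ≤ X` are sums
`⌊f(x₁)⌋ + … + ⌊f(x_k)⌋` with natural numbers `x_i ≥ 0`. -/
theorem result (k : ℕ) (hk : 2 ≤ k) (a : ℝ) (ha : 0 < a) :
    (∃ τ : ℝ, 0 < τ ∧ ∀ᵐ θ : Fin (k - 1) → ℝ,
      (∀ s : ℕ, k + 1 ≤ s → ∀ᶠ X : ℕ in atTop, ∑ n ∈ Finset.Icc 1 X,
        ((({x : Fin s → ℕ | (∀ i, 0 < x i) ∧
          ∑ i, ⌊a * (x i : ℝ) ^ k + ∑ j : Fin (k - 1), θ j * (x i : ℝ) ^ ((j : ℕ) + 1)⌋ = (n : ℤ)}.ncard : ℕ) : ℝ) -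
          Real.Gamma (1 + 1 / k) ^ s / (Real.Gamma (s / k) * a ^ ((s : ℝ) / k)) * (n : ℝ) ^ ((s : ℝ) / k - 1)) ^ 2 ≤
        (X : ℝ) ^ (2 * (s : ℝ) / k - 1 - τ)) ∧
      ∀ᶠ X : ℕ in atTop, ({n : ℕ | n ≤ X ∧ (n : ℝ) ^ ((1 : ℝ) / k - τ) <
        |(({x : Fin (k + 1) → ℕ | (∀ i, 0 < x i) ∧
          ∑ i, ⌊a * (x i : ℝ) ^ k + ∑ j : Fin (k - 1), θ j * (x i : ℝ) ^ ((j : ℕ) + 1)⌋ = (n : ℤ)}.ncard : ℕ) : ℝ) -
          Real.Gamma (1 + 1 / k) ^ (k + 1) / (Real.Gamma (1 + 1 / k) * a ^ (1 + (1 : ℝ) / k)) *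
            (n : ℝ) ^ ((1 : ℝ) / k)|}.ncard : ℝ) ≤ (X : ℝ) ^ (1 - τ)) ∧
    ∀ θ : Fin (k - 1) → ℝ, ∀ ρ : ℝ, 1 / (a * (k.factorial : ℝ)) < ρ → ∀ᶠ X : ℕ in atTop,
      ({n : ℕ | n ≤ X ∧ ∃ x : Fin k → ℕ,
        ∑ i, ⌊a * (x i : ℝ) ^ k + ∑ j : Fin (k - 1), θ j * (x i : ℝ) ^ ((j : ℕ) + 1)⌋ = (n : ℤ)}.ncard : ℝ) ≤
        ρ * X := by
  obtain ⟨d, rfl⟩ : ∃ d, k = d + 1 := ⟨k - 1, by omega⟩
  refine ⟨?_, fun θ ρ hρ => Pool.Agent.U914.WP.upper_k d a ha θ ρ hρ⟩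
  obtain ⟨τ, hτ, h⟩ := Pool.Agent.U914.WP.aa_full d (by omega) a ha
  refine ⟨τ, hτ, ?_⟩
  filter_upwards [h] with θ h
  obtain ⟨h1, h2⟩ := h
  constructor
  · intro s hs
    filter_upwards [h1 s hs] with X hX
    simp only [Pool.Agent.U914.WP.SB_eq d s (by omega) a ha] at hX
    exact hX
  · filter_upwards [h2] with X hX
    have e1 : (((d + 2 : ℕ) : ℝ)) / ((d + 1 : ℕ) : ℝ) = 1 + 1 / ((d + 1 : ℕ) : ℝ) := by
      push_cast
      field_simp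
      ring
    simp only [Pool.Agent.U914.WP.SB_eq d (d + 2) (by omega) a ha, e1] at hX
    exact hX

end Pool.Agent.Results.MP_570bef_nt.AsymptoticAlmostAll
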