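import Mathlib
import Pool.Agent.U914.WP.KF

/-!
# Waring's problem with mixed degrees, for almost all polynomials

For every degree `k ≥ 2` we fix a leading coefficient `A k > 0` and consider the polynomials
`f_k(x) = A k x ^ k + θ_{k-1} x ^ (k-1) + … + θ_1 x`. We prove that for almost all `θ` (in each degree) the following
holds for all degrees `k₀, k₁, …, k_t ≥ 2`: if `1/k₁ + … + 1/k_t ≥ 1` then almost all natural numbers, with a power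
saving, are sums `⌊f_{k₀}(x₀)⌋ + ⌊f_{k₁}(x₁)⌋ + … + ⌊f_{k_t}(x_t)⌋` at positive integers, and if
`1/k₁ + … + 1/k_t ≥ 2` then all large natural numbers are, in both cases with at least the expected order of the
number of representations.
-/

set_option autoImplicit false

namespace Pool.Agent.Results.MP_570bef_nt.MixedDegrees

open MeasureTheory Filter

/-- The integer part of the value at `x` of the polynomial of degree `k` with leading coefficient `A k` and lower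
coefficients `θ k`, that is of `A k x ^ k + θ_{k-1} x ^ (k-1) + … + θ_1 x`. -/
noncomputable def val (A : ℕ → ℝ) (θ : (k : ℕ) → (Fin (k - 1) → ℝ)) (k x : ℕ) : ℤ :=
  ⌊A k * (x : ℝ) ^ k + ∑ j : Fin (k - 1), θ k j * (x : ℝ) ^ ((j : ℕ) + 1)⌋

/-- `n` has at least `L` representations `n = val k₁ x₁ + … + val k_t x_t + val k₀ x₀` with positive integers
`x_i`. -/
def HasReps (A : ℕ → ℝ) (θ : (k : ℕ) → (Fin (k - 1) → ℝ)) (t k0 : ℕ) (k : Fin t → ℕ) (L : ℝ) (n : ℕ) : Prop :=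
  ∃ S : Finset ((Fin t → ℕ) × ℕ), L ≤ S.card ∧
    ∀ q ∈ S, (∀ i, 0 < q.1 i) ∧ 0 < q.2 ∧ ∑ i, val A θ (k i) (q.1 i) + val A θ k0 q.2 = (n : ℤ)

/-- **Mixed degrees.** Let `A k > 0` for every `k`. There are sets `Ω k ⊆ ℝ ^ (k-1)` of full Lebesgue measure
(`k ≥ 2`) such that for every choice of `θ k ∈ Ω k` and all degrees `k₀, k₁, …, k_t ≥ 2` with
`1/k₁ + … + 1/k_t ≥ 1` there are `c, τ > 0` such that

* if `1/k₁ + … + 1/k_t ≥ 2`, then every large `n` has at least `c n ^ (1/k₀ + 1/k₁ + … + 1/k_t - 1)` representations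
  `n = ⌊f_{k₀}(x₀)⌋ + ⌊f_{k₁}(x₁)⌋ + … + ⌊f_{k_t}(x_t)⌋` with positive integers `x_i`;
* for all large `X` all but at most `X ^ (1 - τ)` of the numbers `1 ≤ n ≤ X` have this property. -/
theorem result (A : ℕ → ℝ) (hA : ∀ k, 0 < A k) : ∃ Ω : (k : ℕ) → Set (Fin (k - 1) → ℝ),
    (∀ k, 2 ≤ k → ∀ᵐ θ : Fin (k - 1) → ℝ, θ ∈ Ω k) ∧
    ∀ θ : (k : ℕ) → (Fin (k - 1) → ℝ), (∀ k, 2 ≤ k → θ k ∈ Ω k) →
    ∀ (t k0 : ℕ) (k : Fin t → ℕ), 2 ≤ k0 → (∀ i, 2 ≤ k i) → 1 ≤ ∑ i, 1 / (k i : ℝ) →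
      ∃ c τ : ℝ, 0 < c ∧ 0 < τ ∧
      (2 ≤ ∑ i, 1 / (k i : ℝ) → ∀ᶠ n : ℕ in atTop,
        HasReps A θ t k0 k (c * (n : ℝ) ^ (1 / (k0 : ℝ) + ∑ i, 1 / (k i : ℝ) - 1)) n) ∧
      (∀ᶠ X : ℕ in atTop, ({n : ℕ | 1 ≤ n ∧ n ≤ X ∧
        ¬ HasReps A θ t k0 k (c * (n : ℝ) ^ (1 / (k0 : ℝ) + ∑ i, 1 / (k i : ℝ) - 1)) n}.ncard : ℝ) ≤
          (X : ℝ) ^ (1 - τ)) :=
  Pool.Agent.U914.WP.mixed_poly A hA

end Pool.Agent.Results.MP_570bef_nt.MixedDegrees
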