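import Pool.Agent.U131.OC.F

/-! # Waring's problem with linearly many powers and one generic coefficient

`x_i, y_j` are naturals, `α` is a positive real number. We consider the representations
`n = x_1^k + ... + x_(2s)^k + ⌊α (y_1^k + ... + y_(2t)^k)⌋`.

Method. The sums of `s` powers have gaps `O(y^((1-1/k)^s))` (greedy algorithm). For two sets `A`, `B` of
naturals with gaps `O(y^δ)` and `O(y^ε)` the real numbers within distance `1` of no number
`a + α b` have measure at most `N^(δ + ε + o(1))` up to `N`, in the mean over `α` (start function of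
small discrepancy, dispersion over `α`); the exceptional sets are stable when `α` moves by `1/N`, which
gives a cover of the bad coefficients and their Hausdorff dimension. If more than three quarters
of the numbers up to `N` are near to an element of `{a + α b}`, then all numbers are near to a sum
of two elements. -/

set_option autoImplicit false

open MeasureTheory Filter

namespace Pool.Agent.Results.MP_570bef_nt.OneGenericCoefficient

/-- Let `k, s, t ≥ 1` and `δ = (1 - 1/k)^s + (1 - 1/k)^t`.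
(1) For all `α > 0` outside a set of Hausdorff dimension at most `δ`, every large integer is the sum of `2 s`
powers with exponent `k` and of the integer part of `α` times a sum of `2 t` such powers.
(2) For all `α > 0` outside a set of Hausdorff dimension at most `1 - θ + δ`, all but at most `N^θ` integers `n ≤ N`
(for large `N`) are the sum of `s` powers and of the integer part of `α` times a sum of `t` powers.
(3) For all `α > 0` outside a set of Hausdorff dimension at most `(δ + 2 τ) / (1 + τ)`, for all large real `M` there is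
a sum of `2 s` powers and `α` times a sum of `2 t` powers at distance less than `M^(-τ)` from `M`.
(4) If `s ≥ k log 2`, then for almost every `α > 0` every large integer is a sum of `2 s` powers and
of the integer part of `α` times a sum of `2 s` powers. -/
theorem result (k s t : ℕ) (hk : 1 ≤ k) (hs : 1 ≤ s) (ht : 1 ≤ t) :
    dimH {α : ℝ | 0 < α ∧ ¬ ∀ᶠ n : ℕ in atTop, ∃ x : Fin (2 * s) → ℕ, ∃ y : Fin (2 * t) → ℕ,
        (n : ℤ) = ∑ i, (x i : ℤ) ^ k + ⌊α * ∑ j, (y j : ℝ) ^ k⌋} ≤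
      ENNReal.ofReal ((1 - 1 / (k : ℝ)) ^ s + (1 - 1 / (k : ℝ)) ^ t) ∧
    (∀ θ : ℝ, 0 < θ → θ ≤ 1 →
      dimH {α : ℝ | 0 < α ∧ ¬ ∀ᶠ N : ℕ in atTop, ({n : ℕ | n ≤ N ∧
          ¬ ∃ x : Fin s → ℕ, ∃ y : Fin t → ℕ,
            (n : ℤ) = ∑ i, (x i : ℤ) ^ k + ⌊α * ∑ j, (y j : ℝ) ^ k⌋}.ncard : ℝ) ≤ (N : ℝ) ^ θ} ≤
        ENNReal.ofReal (1 - θ + ((1 - 1 / (k : ℝ)) ^ s + (1 - 1 / (k : ℝ)) ^ t))) ∧
    (∀ τ : ℝ, 0 ≤ τ →
      dimH {α : ℝ | 0 < α ∧ ¬ ∀ᶠ M : ℝ in atTop, ∃ x : Fin (2 * s) → ℕ, ∃ y : Fin (2 * t) → ℕ,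
          |∑ i, (x i : ℝ) ^ k + α * ∑ j, (y j : ℝ) ^ k - M| < M ^ (-τ)} ≤
        ENNReal.ofReal (((1 - 1 / (k : ℝ)) ^ s + (1 - 1 / (k : ℝ)) ^ t + 2 * τ) / (1 + τ))) ∧
    ((k : ℝ) * Real.log 2 ≤ s →
      ∀ᵐ α : ℝ, 0 < α → ∀ᶠ n : ℕ in atTop, ∃ x : Fin (2 * s) → ℕ, ∃ y : Fin (2 * s) → ℕ,
        (n : ℤ) = ∑ i, (x i : ℤ) ^ k + ⌊α * ∑ j, (y j : ℝ) ^ k⌋) := by
  obtain ⟨s, rfl⟩ : ∃ s', s = s' + 1 := ⟨s - 1, by omega⟩
  obtain ⟨t, rfl⟩ : ∃ t', t = t' + 1 := ⟨t - 1, by omega⟩
  exact ⟨U131.OC.all_floor hk s t, fun θ h0 h1 => U131.OC.almost_all hk s t h0 h1,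
    fun τ h0 => U131.OC.all_real hk s t h0, fun h => U131.OC.linear hk s h⟩

end Pool.Agent.Results.MP_570bef_nt.OneGenericCoefficient
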