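import Pool.Agent.U416.WR.Dense
import Pool.Agent.U416.WR.Sharp

set_option autoImplicit false

/-!
# Waring's problem relative to dense sets: the number of `k`-th powers is bounded independently of `k`

The question is whether every large integer is a sum of `O(k)` `k`-th powers. We show that every large
integer is a sum of elements of dense sets and of a number of `k`-th powers which does not depend on `k`.

(1) Let `B_1, …, B_h` be sets of natural numbers of positive lower densities whose sum is greater than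
one, for example `h` copies of one set of lower density greater than `1 / h`. Then, for every `k ≥ 1`,
every large `N` is `b_1 + … + b_h + j m ^ k` with `b_i ∈ B_i` and `1 ≤ j ≤ h`: it is a sum of elements
of the `B_i` and of at most `h` (equal) `k`-th powers; `m` may be taken without small prime factors.

(2) The condition on the densities is sharp: for `c < 1 / h` and every `J` there are arbitrarily large
`k` and a set `B` with at least `c n` elements below `n`, for every `n`, such that a whole residue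
class of integers are not sums of `h` elements of `B` and `J` `k`-th powers.

(3) The number of `k`-th powers is sharp up to `2`: for `h = p + 1`, `p` prime, the multiples of `p`
have density `1 / p > 1 / h`, and no `N ≡ -1 (mod p)` is a sum of multiples of `p` and of `h - 3`
powers with exponent `p - 1`.

(4) If the sums of `s` `k`-th powers have lower density greater than `1 / h`, then every large integer
is a sum of `h (s + 1)` `k`-th powers.

Proof of (1): let `m ≡ 1` modulo `w!` with `h m ^ k ≤ N < (h + 1) m ^ k`. The proper subgroups of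
`ℤ / m ^ k` have index greater than `w`, so by Kneser's theorem the sum of the sets `B_i ∩ [0, m ^ k)`
contains all the classes modulo `m ^ k`, and the multiples `j m ^ k` are sums of `j` `k`-th powers.
-/

namespace Pool.Agent.Results.MP_570bef_nt.RelativeToDenseSets

open Filter

/-- The set `B` has a lower density greater than `c`. -/
def LowerDensityGT (B : Set ℕ) (c : ℝ) : Prop :=
  ∃ c' : ℝ, c < c' ∧ ∀ᶠ n : ℕ in atTop, c' * n ≤ ((B ∩ Set.Iio n).ncard : ℝ)

/-- `N` is a sum of `s` `k`-th powers of natural numbers (zero is allowed). -/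
def IsSumOfPowers (k s N : ℕ) : Prop := ∃ x : Fin s → ℕ, ∑ i, x i ^ k = N

/-- **Waring's problem relative to dense sets**: see the head of the file. -/
theorem result :
    -- (1)
    (∀ (h k w : ℕ), 1 ≤ h → 1 ≤ k → ∀ (B : Fin h → Set ℕ) (α : Fin h → ℝ), (∀ i, 0 ≤ α i) →
      1 ≤ ∑ i, α i → (∀ i, LowerDensityGT (B i) (α i)) →
      ∀ᶠ N : ℕ in atTop, ∃ (b : Fin h → ℕ) (j m : ℕ), (∀ i, b i ∈ B i) ∧ 1 ≤ j ∧ j ≤ h ∧
        (∀ p : ℕ, p.Prime → p ∣ m → w < p) ∧ N = ∑ i, b i + j * m ^ k) ∧
    -- (2)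
    (∀ (h J k₀ : ℕ) (c : ℝ), 1 ≤ h → 0 ≤ c → c < 1 / h → ∃ k : ℕ, k₀ ≤ k ∧ ∃ B : Set ℕ,
      (∀ n : ℕ, c * n ≤ ((B ∩ Set.Iio n).ncard : ℝ)) ∧ ∃ p : ℕ, p.Prime ∧ ∀ N : ℕ, N % p = p - 1 →
        ¬ ∃ (b : Fin h → ℕ) (x : Fin J → ℕ), (∀ i, b i ∈ B) ∧ N = ∑ i, b i + ∑ i, x i ^ k) ∧
    -- (3)
    (∀ h : ℕ, (h - 1).Prime → LowerDensityGT {b : ℕ | h - 1 ∣ b} (1 / h) ∧
      ∀ s N : ℕ, N % (h - 1) = h - 2 → ¬ ∃ (b : Fin s → ℕ) (x : Fin (h - 3) → ℕ),
        (∀ i, h - 1 ∣ b i) ∧ N = ∑ i, b i + ∑ i, x i ^ (h - 2)) ∧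
    -- (4)
    ∀ (h k s : ℕ), 1 ≤ h → 1 ≤ k → LowerDensityGT {n | IsSumOfPowers k s n} (1 / h) →
      ∀ᶠ N : ℕ in atTop, IsSumOfPowers k (h * (s + 1)) N := by
  have h1 : ∀ (h k w : ℕ), 1 ≤ h → 1 ≤ k → ∀ (B : Fin h → Set ℕ) (α : Fin h → ℝ), (∀ i, 0 ≤ α i) →
      1 ≤ ∑ i, α i → (∀ i, LowerDensityGT (B i) (α i)) →
      ∀ᶠ N : ℕ in atTop, ∃ (b : Fin h → ℕ) (j m : ℕ), (∀ i, b i ∈ B i) ∧ 1 ≤ j ∧ j ≤ h ∧
        (∀ p : ℕ, p.Prime → p ∣ m → w < p) ∧ N = ∑ i, b i + j * m ^ k := by
    intro h k w hh hk B α hα hs hB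
    choose β hβ hB' using hB
    have hlt : ∑ i, α i < ∑ i, β i := by
      have : (Finset.univ : Finset (Fin h)).Nonempty := ⟨⟨0, by omega⟩, Finset.mem_univ _⟩
      exact Finset.sum_lt_sum_of_nonempty this fun i _ => hβ i
    exact U416.WR.cover h hh β (fun i => (hα i).trans_lt (hβ i)) (hs.trans_lt hlt) k hk B hB' w
  refine ⟨h1, ?_, ?_, ?_⟩
  · intro h J k₀ c hh hc0 hc
    have hh0 : (0 : ℝ) < h := by exact_mod_cast hh
    exact U416.WR.sharp h J k₀ hh c hc0 (by rwa [lt_div_iff₀ hh0] at hc)
  · intro h hp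
    have hp2 := hp.two_le
    refine ⟨⟨1 / ((h - 1 : ℕ) : ℝ), ?_, Filter.Eventually.of_forall fun n => ?_⟩, ?_⟩
    · have e1 : ((h - 1 : ℕ) : ℝ) = h - 1 := by
        rw [Nat.cast_sub (by omega)]
        simp
      have e2 : (2 : ℝ) ≤ ((h - 1 : ℕ) : ℝ) := by exact_mod_cast hp2
      rw [e1] at e2 ⊢
      exact one_div_lt_one_div_of_lt (by linarith) (by linarith)
    · have e : {b : ℕ | h - 1 ∣ b} = {x : ℕ | x % (h - 1) < 1} := by
        ext x
        simp [Nat.dvd_iff_mod_eq_zero]
      rw [e]
      refine U416.WR.block_density (h - 1) 1 (by omega) (by omega) _ ?_ n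
      rw [one_div, inv_mul_cancel₀ (by
        have : (0 : ℝ) < ((h - 1 : ℕ) : ℝ) := by exact_mod_cast hp.pos
        exact this.ne')]
      simp
    · intro s N hN
      have e1 : h - 3 = (h - 1) - 2 := by omega
      have e2 : h - 2 = (h - 1) - 1 := by omega
      rw [e1, e2]
      exact U416.WR.few_powers (h - 1) hp s N (by omega)
  · intro h k s hh hk hden
    have h2 := h1 h k 0 hh hk (fun _ => {n | IsSumOfPowers k s n}) (fun _ => 1 / (h : ℝ))
      (fun _ => by positivity) (by
        have hh0 : (h : ℝ) ≠ 0 := by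
          have : (0 : ℝ) < h := by exact_mod_cast hh
          exact this.ne'
        rw [Finset.sum_const, Finset.card_univ, Fintype.card_fin, nsmul_eq_mul, mul_one_div_cancel hh0])
      (fun _ => hden)
    filter_upwards [h2] with N hN
    obtain ⟨b, j, m, hb, _, hj, _, hNeq⟩ := hN
    choose x hx using hb
    refine ⟨fun i => Fin.lastCases (motive := fun _ => ℕ)
      (if (finProdFinEquiv.symm i).1.val < j then m else 0) (fun l => x (finProdFinEquiv.symm i).1 l)
      (finProdFinEquiv.symm i).2, ?_⟩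
    rw [← finProdFinEquiv.sum_comp]
    simp only [Equiv.symm_apply_apply]
    rw [Fintype.sum_prod_type]
    have h3 : ∀ i : Fin h, ∑ l : Fin (s + 1), (Fin.lastCases (motive := fun _ => ℕ)
        (if i.val < j then m else 0) (fun l => x i l) l) ^ k = b i + if i.val < j then m ^ k else 0 := by
      intro i
      rw [Fin.sum_univ_castSucc]
      simp only [Fin.lastCases_castSucc, Fin.lastCases_last]
      rw [hx i]
      congr 1
      split_ifs
      · rfl
      · exact zero_pow (by omega)
    rw [Finset.sum_congr rfl fun i _ => h3 i, Finset.sum_add_distrib, hNeq]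
    congr 1
    rw [← Finset.sum_filter, Finset.sum_const, smul_eq_mul]
    congr 1
    have h4 : (Finset.univ.filter fun i : Fin h => i.val < j).card = j := by
      rw [Fin.card_filter_val_lt]
      exact min_eq_right hj
    exact h4

end Pool.Agent.Results.MP_570bef_nt.RelativeToDenseSets
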